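import Pool.Agent.Lib_helper67.XO4.Prot
import Pool.Agent.Lib_helper16.XO4.Kill

/-!
Part IV, second half: from the main theorem (no spread world) to parity decision trees of depth
`C s ^ ε` and protocols of cost `C r ^ ε`.
-/

set_option autoImplicit false

namespace Pool.Agent.Lib_helper67.XO4

open Pool.Agent.Lib_helper10.LogRank

/-- parity decision trees and protocols -/
theorem final_of_noWorld (hnw : Pool.Agent.XO.NoWorld) (ε : ℝ) (hε : 0 < ε) :
    ∃ C : ℝ, ∀ (n : ℕ) (f : (Fin n → ZMod 2) → Bool),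
      (∃ T : ParityTree n, (∀ x, T.eval x = f x) ∧
        (T.depth : ℝ) ≤ C * (sparsity f : ℝ) ^ ε) ∧
      ∀ u v : (Fin n → ZMod 2) → Bool, ∃ P : Protocol (Fin n → ZMod 2) (Fin n → ZMod 2),
        (∀ x y, P.eval x y = (f (x + y) ^^ u x ^^ v y)) ∧
        (P.cost : ℝ) ≤
          C * (realRank fun x y : Fin n → ZMod 2 => (f (x + y) ^^ u x ^^ v y) : ℝ) ^ ε :=
  final_of_kill (fun κ h0 h1 => Pool.Agent.XO.kill_eps hnw κ h0 h1) ε hε

/-- protocols only -/
theorem final_prot (hnw : Pool.Agent.XO.NoWorld) (ε : ℝ) (hε : 0 < ε) :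
    ∃ C : ℝ, ∀ (n : ℕ) (f u v : (Fin n → ZMod 2) → Bool),
      ∃ π : Protocol (Fin n → ZMod 2) (Fin n → ZMod 2),
        (∀ x y, π.eval x y = (f (x + y) ^^ u x ^^ v y)) ∧
        (π.cost : ℝ) ≤
          C * (realRank fun x y : Fin n → ZMod 2 => (f (x + y) ^^ u x ^^ v y) : ℝ) ^ ε := by
  obtain ⟨C, hC⟩ := final_of_noWorld hnw ε hε
  exact ⟨C, fun n f u v => (hC n f).2 u v⟩

end Pool.Agent.Lib_helper67.XO4
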