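import Mathlib

/-!
Definitions for the hand-in `MP_e5d384_lc.XorSubpolynomial`: parity decision trees and the number
of nonzero Fourier coefficients of a Boolean function on `F_2 ^ n`.
-/

set_option autoImplicit false

namespace Pool.Agent.Lib_helper67.XO4

/-- A parity decision tree on `F_2 ^ n`: each internal node asks for the value at the input `x` of
one linear form `x ↦ ∑ i, a i * x i` over `F_2`, and each leaf carries the output. -/
inductive ParityTree (n : ℕ) : Type
  | leaf (out : Bool) : ParityTree n
  | query (a : Fin n → ZMod 2) (t₀ t₁ : ParityTree n) : ParityTree n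

namespace ParityTree

/-- The output of the tree on the input `x`. -/
def eval {n : ℕ} : ParityTree n → (Fin n → ZMod 2) → Bool
  | leaf b, _ => b
  | query a t₀ t₁, x => if ∑ i, a i * x i = 0 then t₀.eval x else t₁.eval x

/-- The depth of the tree: the maximal number of queries on an input. -/
def depth {n : ℕ} : ParityTree n → ℕ
  | leaf _ => 0
  | query _ t₀ t₁ => max t₀.depth t₁.depth + 1

end ParityTree

open Classical in
/-- The number of `a` in `F_2 ^ n` for which the (unnormalised) Fourier coefficient
`∑ x, f x * (-1) ^ (∑ i, a i * x i)` of the `{0, 1}`-valued function `f` is not zero. -/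
noncomputable def sparsity {n : ℕ} (f : (Fin n → ZMod 2) → Bool) : ℕ :=
  (Finset.univ.filter fun a : Fin n → ZMod 2 =>
    (∑ x : Fin n → ZMod 2, (if f x then (1 : ℝ) else 0) *
      (if ∑ i, a i * x i = 0 then (1 : ℝ) else -1)) ≠ 0).card

end Pool.Agent.Lib_helper67.XO4
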