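import Pool.Agent.Lib_helper67.XO4.Tree
import Pool.Agent.Lib_helper67.LR.Final

/-!
From parity decision trees to protocols for `f (x + y) + u (x) + v (y)`.
-/

set_option autoImplicit false

namespace Pool.Agent.Lib_helper67.XO4

open Finset Pool.Agent.Lib_helper67.LR
open Pool.Agent.Lib_helper78.LR (G spec spec_le_rank zmod2_cases)
open Pool.Agent.Lib_helper10.LogRank
open scoped BigOperators

/-- The leaf of the protocol: both players send one bit. -/
def lf {n : ℕ} (u v : (Fin n → ZMod 2) → Bool) (b : Bool) :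
    Protocol (Fin n → ZMod 2) (Fin n → ZMod 2) :=
  .alice u (.bob v (.leaf b) (.leaf !b)) (.bob v (.leaf !b) (.leaf b))

/-- The protocol of a parity decision tree. -/
def prot {n : ℕ} (u v : (Fin n → ZMod 2) → Bool) :
    ParityTree n → Protocol (Fin n → ZMod 2) (Fin n → ZMod 2)
  | .leaf b => lf u v b
  | .query a t₀ t₁ => .alice (fun x => decide (∑ i, a i * x i = 1))
      (.bob (fun y => decide (∑ i, a i * y i = 1)) (prot u v t₀) (prot u v t₁))
      (.bob (fun y => decide (∑ i, a i * y i = 1)) (prot u v t₁) (prot u v t₀))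

theorem prot_cost {n : ℕ} (u v : (Fin n → ZMod 2) → Bool) (P : ParityTree n) :
    (prot u v P).cost = 2 * P.depth + 2 := by
  induction P with
  | leaf b => rfl
  | query a t₀ t₁ h₀ h₁ =>
    simp only [prot, Protocol.cost, ParityTree.depth, h₀, h₁]
    omega

theorem lf_eval {n : ℕ} (u v : (Fin n → ZMod 2) → Bool) (b : Bool) (x y : Fin n → ZMod 2) :
    (lf u v b).eval x y = (b ^^ u x ^^ v y) := by
  unfold lf
  simp only [Protocol.eval]
  cases b <;> cases u x <;> cases v y <;> rfl

theorem prot_eval {n : ℕ} (u v : (Fin n → ZMod 2) → Bool) (P : ParityTree n)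
    (x y : Fin n → ZMod 2) : (prot u v P).eval x y = (P.eval (x + y) ^^ u x ^^ v y) := by
  induction P with
  | leaf b => exact lf_eval u v b x y
  | query a t₀ t₁ h₀ h₁ =>
    have hs : ∑ i, a i * (x + y) i = ∑ i, a i * x i + ∑ i, a i * y i := by
      rw [← Finset.sum_add_distrib]
      exact Finset.sum_congr rfl fun i _ => by rw [Pi.add_apply, mul_add]
    have h10 : ¬ ((1 : ZMod 2) = 0) := by decide
    have h01 : ¬ ((0 : ZMod 2) = 1) := by decide
    have h11 : (1 : ZMod 2) + 1 = 0 := by decide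
    simp only [prot, Protocol.eval, ParityTree.eval, hs]
    rcases zmod2_cases (∑ i, a i * x i) with h2 | h2 <;>
      rcases zmod2_cases (∑ i, a i * y i) with h3 | h3 <;>
      simp [h2, h3, h₀, h₁, h11]

theorem rank_add_le' {m n : Type} [Fintype m] [Fintype n] (A B : Matrix m n ℝ) :
    (A + B).rank ≤ A.rank + B.rank := by
  unfold Matrix.rank
  refine (Submodule.finrank_mono ?_).trans (Submodule.finrank_add_le_finrank_add_finrank _ _)
  rintro _ ⟨v, rfl⟩
  rw [Matrix.mulVecLin_apply, Matrix.add_mulVec]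
  exact Submodule.add_mem_sup ⟨v, rfl⟩ ⟨v, rfl⟩

theorem eq_zero_of_rank {m n : Type} [Fintype m] [Fintype n] [DecidableEq n]
    (A : Matrix m n ℝ) (h : A.rank = 0) : A = 0 := by
  unfold Matrix.rank at h
  rw [Submodule.finrank_eq_zero, LinearMap.range_eq_bot] at h
  ext i j
  have h1 := LinearMap.congr_fun h (Pi.single j 1)
  rw [Matrix.mulVecLin_apply, LinearMap.zero_apply, Matrix.mulVec_single_one] at h1
  exact congrFun h1 i

/-- the sign of a bit -/
noncomputable def sb (b : Bool) : ℝ := if b then -1 else 1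

theorem sb_xor (a b : Bool) : sb (a ^^ b) = sb a * sb b := by
  cases a <;> cases b <;> simp [sb]

theorem sb_mul_self (a : Bool) : sb a * sb a = 1 := by
  cases a <;> simp [sb]

/-- the sparsity and the rank -/
theorem spec_le_realRank {n : ℕ} (f u v : (Fin n → ZMod 2) → Bool) :
    (spec (sgf f)).card ≤ realRank (fun x y : Fin n → ZMod 2 => f (x + y) ^^ u x ^^ v y) + 1 := by
  classical
  refine (spec_le_rank (sgf f)).trans ?_
  set M : Matrix (Fin n → ZMod 2) (Fin n → ZMod 2) ℝ :=
    Matrix.of fun x y => if (f (x + y) ^^ u x ^^ v y) then (1 : ℝ) else 0 with hM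
  have hdef : realRank (fun x y : Fin n → ZMod 2 => f (x + y) ^^ u x ^^ v y) = M.rank := rfl
  rw [hdef]
  have h1 : (Matrix.of fun (x y : G (Fin n)) => sgf f (x + y)) =
      Matrix.diagonal (fun x : Fin n → ZMod 2 => sb (u x)) *
        (Matrix.vecMulVec (fun _ => (1 : ℝ)) (fun _ => (1 : ℝ)) +
          M * Matrix.diagonal (fun _ => (-2 : ℝ))) *
        Matrix.diagonal (fun y : Fin n → ZMod 2 => sb (v y)) := by
    ext x y
    rw [Matrix.mul_diagonal, Matrix.diagonal_mul, Matrix.add_apply, Matrix.mul_diagonal,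
      Matrix.vecMulVec_apply, Matrix.of_apply]
    have h2 : (1 : ℝ) * 1 + M x y * (-2) = sb (f (x + y) ^^ u x ^^ v y) := by
      rw [hM, Matrix.of_apply]
      unfold sb
      split_ifs <;> norm_num
    rw [h2, sb_xor, sb_xor]
    have h3 : sgf f (x + y) = sb (f (x + y)) := rfl
    rw [h3]
    have h4 := sb_mul_self (u x)
    have h5 := sb_mul_self (v y)
    calc sb (f (x + y)) = sb (f (x + y)) * (sb (u x) * sb (u x)) * (sb (v y) * sb (v y)) := by
          rw [h4, h5]; ring
      _ = _ := by ring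
  rw [h1]
  refine (Matrix.rank_mul_le_left _ _).trans ((Matrix.rank_mul_le_right _ _).trans ?_)
  refine (rank_add_le' _ _).trans ?_
  have h2 := Matrix.rank_vecMulVec_le (fun _ : Fin n → ZMod 2 => (1 : ℝ))
    (fun _ : Fin n → ZMod 2 => (1 : ℝ))
  have h3 := Matrix.rank_mul_le_left M (Matrix.diagonal (fun _ : Fin n → ZMod 2 => (-2 : ℝ)))
  omega

theorem rpow_min_le (r : ℕ) (ε : ℝ) (hε : 0 < ε) : (r : ℝ) ^ (min ε 1) ≤ (r : ℝ) ^ ε := by
  rcases Nat.eq_zero_or_pos r with rfl | hr
  · rw [Nat.cast_zero, Real.zero_rpow (lt_min hε one_pos).ne', Real.zero_rpow hε.ne']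
  · exact Real.rpow_le_rpow_of_exponent_le (by exact_mod_cast hr) (min_le_left _ _)

/-- the final form, from constant restrictions -/
theorem final_of_kill
    (hkill : ∀ κ : ℝ, 0 < κ → κ ≤ 1 → ∃ A : ℝ, 0 ≤ A ∧
      ∀ {Ω : Type} [Fintype Ω] [DecidableEq Ω] (f : G Ω → ℝ),
        IsSign f → Kill f (A * ((spec f).card : ℝ) ^ κ)) (ε : ℝ) (hε : 0 < ε) :
    ∃ C : ℝ, ∀ (n : ℕ) (f : (Fin n → ZMod 2) → Bool),
      (∃ T : ParityTree n, (∀ x, T.eval x = f x) ∧
        (T.depth : ℝ) ≤ C * (sparsity f : ℝ) ^ ε) ∧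
      ∀ u v : (Fin n → ZMod 2) → Bool, ∃ P : Protocol (Fin n → ZMod 2) (Fin n → ZMod 2),
        (∀ x y, P.eval x y = (f (x + y) ^^ u x ^^ v y)) ∧
        (P.cost : ℝ) ≤
          C * (realRank fun x y : Fin n → ZMod 2 => (f (x + y) ^^ u x ^^ v y) : ℝ) ^ ε := by
  classical
  have hκ0 : 0 < min ε 1 := lt_min hε one_pos
  have hκ1 : min ε 1 ≤ 1 := min_le_right _ _
  obtain ⟨A, hA0, hA⟩ := hkill (min ε 1) hκ0 hκ1
  obtain ⟨B, hB0, hB⟩ := tree_of_kill exists_restriction nc_restriction (min ε 1) hκ0 hκ1 A hA0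
    (fun n f hf => hA f hf)
  refine ⟨4 * B + 2, fun n f => ⟨?_, fun u v => ?_⟩⟩
  · obtain ⟨T, hT1, hT2⟩ := hB n f (sparsity f)
      ((Finset.card_le_card (spec_sub f)).trans (sparsity_eq f).ge)
    refine ⟨T, hT1, hT2.trans ?_⟩
    have h1 : (0 : ℝ) ≤ (sparsity f : ℝ) ^ ε := by positivity
    calc B * (sparsity f : ℝ) ^ (min ε 1) ≤ B * (sparsity f : ℝ) ^ ε :=
          mul_le_mul_of_nonneg_left (rpow_min_le _ ε hε) hB0
      _ ≤ (4 * B + 2) * (sparsity f : ℝ) ^ ε :=
          mul_le_mul_of_nonneg_right (by linarith) h1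
  · set r : ℕ := realRank fun x y : Fin n → ZMod 2 => (f (x + y) ^^ u x ^^ v y) with hr
    rcases Nat.eq_zero_or_pos r with h0 | hpos
    · -- the zero function
      refine ⟨.leaf false, fun x y => ?_, ?_⟩
      · have h1 := eq_zero_of_rank _ (hr.symm.trans h0)
        have h2 := congrFun (congrFun h1 x) y
        rw [Matrix.of_apply, Matrix.zero_apply] at h2
        simp only [Protocol.eval]
        cases h3 : (f (x + y) ^^ u x ^^ v y) with
        | false => rfl
        | true =>
          rw [if_pos h3] at h2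
          norm_num at h2
      · simp only [Protocol.cost, Nat.cast_zero]
        positivity
    · have hr1 : (1 : ℝ) ≤ r := by exact_mod_cast hpos
      have hc : ((spec (sgf f)).erase 0).card ≤ 2 * r := by
        have h1 := spec_le_realRank f u v
        have h2 : ((spec (sgf f)).erase 0).card ≤ (spec (sgf f)).card :=
          Finset.card_le_card (Finset.erase_subset _ _)
        omega
      obtain ⟨T, hT1, hT2⟩ := hB n f (2 * r) hc
      refine ⟨prot u v T, fun x y => by rw [prot_eval, hT1], ?_⟩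
      rw [prot_cost]
      have h1 : ((2 * r : ℕ) : ℝ) ^ (min ε 1) ≤ 2 * (r : ℝ) ^ (min ε 1) := by
        push_cast
        rw [Real.mul_rpow (by norm_num) (by positivity)]
        refine mul_le_mul_of_nonneg_right ?_ (by positivity)
        calc (2 : ℝ) ^ (min ε 1) ≤ 2 ^ (1 : ℝ) :=
              Real.rpow_le_rpow_of_exponent_le (by norm_num) hκ1
          _ = 2 := Real.rpow_one 2
      have h2 := rpow_min_le r ε hε
      have h3 : (1 : ℝ) ≤ (r : ℝ) ^ ε := Real.one_le_rpow hr1 hε.le
      have h4 : (T.depth : ℝ) ≤ B * (2 * (r : ℝ) ^ ε) :=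
        hT2.trans (mul_le_mul_of_nonneg_left (h1.trans (by linarith)) hB0)
      push_cast
      nlinarith

end Pool.Agent.Lib_helper67.XO4
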