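import Pool.Agent.Lib_helper73.LRXPR
import Pool.Agent.Lib_helper10.LogRank.Defs
import Pool.Agent.Lib_helper67.XO4.Defs

/-!
From constant restrictions of codimension `A s ^ κ` to parity decision trees of depth `O(s ^ κ)`,
for every exponent `κ` in `(0, 1]`, and to protocols.
-/

set_option autoImplicit false

namespace Pool.Agent.Lib_helper67.XO4

open Finset Pool.Agent.Lib_helper78.LR Pool.Agent.Lib_helper67.LR
open scoped BigOperators

theorem sg_inj {a b : ZMod 2} (h : sg a = sg b) : a = b := by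
  rcases zmod2_cases a with rfl | rfl <;> rcases zmod2_cases b with rfl | rfl
  · rfl
  · rw [sg_zero, sg_one] at h; norm_num at h
  · rw [sg_zero, sg_one] at h; norm_num at h
  · rfl

/-- Ask for the values of finitely many linear forms. -/
theorem pdt_query {n : ℕ} (g : (Fin n → ZMod 2) → Bool) (c : ℕ) (L : List (Fin n → ZMod 2)) :
    ∀ R : (Fin n → ZMod 2) → Prop,
      (∀ z : Fin n → ZMod 2, R z → ∃ P : ParityTree n, P.depth ≤ c ∧
        ∀ x, R x → (∀ a ∈ L, ∑ i, a i * x i = ∑ i, a i * z i) → P.eval x = g x) →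
      ∃ P : ParityTree n, P.depth ≤ c + L.length ∧ ∀ x, R x → P.eval x = g x := by
  induction L with
  | nil =>
    intro R h
    by_cases hR : ∃ z, R z
    · obtain ⟨z, hz⟩ := hR
      obtain ⟨P, h1, h2⟩ := h z hz
      exact ⟨P, h1, fun x hx => h2 x hx (fun a ha => by simp at ha)⟩
    · exact ⟨ParityTree.leaf true, Nat.zero_le _, fun x hx => absurd ⟨x, hx⟩ hR⟩
  | cons a L ih =>
    intro R h
    obtain ⟨P₀, h0, h0'⟩ := ih (fun x => R x ∧ ∑ i, a i * x i = 0) (by
      rintro z ⟨hz, hz0⟩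
      obtain ⟨P, h1, h2⟩ := h z hz
      refine ⟨P, h1, fun x hx hx' => h2 x hx.1 ?_⟩
      intro b hb
      rcases List.mem_cons.1 hb with rfl | hb
      · rw [hx.2, hz0]
      · exact hx' b hb)
    obtain ⟨P₁, h1, h1'⟩ := ih (fun x => R x ∧ ∑ i, a i * x i = 1) (by
      rintro z ⟨hz, hz0⟩
      obtain ⟨P, h1, h2⟩ := h z hz
      refine ⟨P, h1, fun x hx hx' => h2 x hx.1 ?_⟩
      intro b hb
      rcases List.mem_cons.1 hb with rfl | hb
      · rw [hx.2, hz0]
      · exact hx' b hb)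
    refine ⟨ParityTree.query a P₀ P₁, ?_, fun x hx => ?_⟩
    · simp only [ParityTree.depth, List.length_cons]
      have := max_le h0 h1
      omega
    · simp only [ParityTree.eval]
      rcases zmod2_cases (∑ i, a i * x i) with h2 | h2
      · rw [if_pos h2]
        exact h0' x ⟨hx, h2⟩
      · rw [if_neg (by rw [h2]; decide)]
        exact h1' x ⟨hx, h2⟩

theorem pdt_rec (hres : ExRes) (hnc : NcRes) (κ : ℝ) (hκ0 : 0 < κ) (hκ1 : κ ≤ 1)
    (A : ℝ) (hA : 0 ≤ A) (n : ℕ)
    (h : ∀ f : G (Fin n) → ℝ, IsSign f → Kill f (A * ((spec f).card : ℝ) ^ κ)) (m : ℕ) :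
    ∀ f : G (Fin n) → ℝ, IsSign f → ((spec f).erase 0).card ≤ m →
      ∃ P : ParityTree n, (P.depth : ℝ) ≤ 2 * A / (1 - (1 / 2 : ℝ) ^ κ) * (m : ℝ) ^ κ ∧
        ∀ x, P.eval x = decide (f x = -1) := by
  classical
  have hq1 : (1 / 2 : ℝ) ^ κ < 1 := Real.rpow_lt_one (by norm_num) (by norm_num) hκ0
  have hq0 : 0 < 1 - (1 / 2 : ℝ) ^ κ := by linarith
  set B : ℝ := 2 * A / (1 - (1 / 2 : ℝ) ^ κ) with hB
  have hB0 : 0 ≤ B := div_nonneg (by linarith) hq0.le
  have hBq : B * (1 / 2 : ℝ) ^ κ + 2 * A = B := by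
    have : B * (1 - (1 / 2 : ℝ) ^ κ) = 2 * A := by
      rw [hB, div_mul_cancel₀ _ hq0.ne']
    linarith
  induction m using Nat.strong_induction_on with
  | _ m ih =>
  intro f hf hm
  rcases Nat.eq_zero_or_pos m with rfl | hmpos
  · -- constant function
    have h0 : (spec f).erase 0 = ∅ := Finset.card_eq_zero.mp (Nat.le_zero.mp hm)
    refine ⟨ParityTree.leaf (decide (f 0 = -1)), ?_, fun x => ?_⟩
    · simp only [ParityTree.depth, Nat.cast_zero]
      positivity
    · simp only [ParityTree.eval]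
      rw [const_of_spec f h0 x 0]
  · obtain ⟨T, x₀, hTc, hT⟩ := h f hf
    obtain ⟨ψ, π, h1, h2, h3⟩ := hres T
    set c : ℕ := ⌊B * ((m : ℝ) / 2) ^ κ⌋₊ with hc
    -- the restricted functions
    have hsub : ∀ z : G (Fin n), ∃ P : ParityTree n, P.depth ≤ c ∧
        ∀ x, P.eval x = decide (f (z + π x) = -1) := by
      intro z
      have hh := halving hnc f T x₀ hT ψ π h1 h2 z
      have hlt : m / 2 < m := Nat.div_lt_self hmpos (by norm_num)
      obtain ⟨P, hP1, hP2⟩ := ih (m / 2) hlt (fun x => f (z + π x)) (fun x => hf _) (by omega)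
      refine ⟨P, ?_, hP2⟩
      apply Nat.le_floor
      refine hP1.trans ?_
      refine mul_le_mul_of_nonneg_left ?_ hB0
      refine Real.rpow_le_rpow (Nat.cast_nonneg _) ?_ hκ0.le
      exact Nat.cast_div_le
    obtain ⟨P, hP1, hP2⟩ := pdt_query (fun x => decide (f x = -1)) c T.toList (fun _ => True) (by
      intro z _
      obtain ⟨P, hP1, hP2⟩ := hsub (z + π z)
      refine ⟨P, hP1, fun x _ hx => ?_⟩
      rw [hP2]
      have hz : π (z + x) = z + x := by
        apply h3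
        intro a ha
        rw [chi_add]
        have h4 : chi a x = chi a z := by
          unfold chi
          rw [hx a (Finset.mem_toList.2 ha)]
        rw [h4]
        exact chi_mul_self _ _
      have hz2 : z + π z + π x = x := by
        rw [add_assoc, ← map_add, hz, ← add_assoc, add_self, zero_add]
      rw [hz2])
    refine ⟨P, ?_, fun x => hP2 x trivial⟩
    rw [Finset.length_toList] at hP1
    have hm1 : (1 : ℝ) ≤ m := by exact_mod_cast hmpos
    have e1 : (P.depth : ℝ) ≤ c + T.card := by exact_mod_cast hP1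
    have e2 : (c : ℝ) ≤ B * ((m : ℝ) / 2) ^ κ := Nat.floor_le (by positivity)
    have e3 : ((spec f).card : ℝ) ≤ 2 * m := by
      have : (spec f).card - 1 ≤ ((spec f).erase 0).card := Finset.pred_card_le_card_erase
      have h4 : (spec f).card ≤ m + 1 := by omega
      have h5 : ((spec f).card : ℝ) ≤ m + 1 := by exact_mod_cast h4
      linarith
    have e4 : ((spec f).card : ℝ) ^ κ ≤ 2 * (m : ℝ) ^ κ := by
      calc ((spec f).card : ℝ) ^ κ ≤ (2 * m) ^ κ := Real.rpow_le_rpow (Nat.cast_nonneg _) e3 hκ0.le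
        _ = 2 ^ κ * (m : ℝ) ^ κ := Real.mul_rpow (by norm_num) (by positivity)
        _ ≤ 2 ^ (1 : ℝ) * (m : ℝ) ^ κ := by
          refine mul_le_mul_of_nonneg_right ?_ (by positivity)
          exact Real.rpow_le_rpow_of_exponent_le (by norm_num) hκ1
        _ = 2 * (m : ℝ) ^ κ := by rw [Real.rpow_one]
    have e5 : ((m : ℝ) / 2) ^ κ = (1 / 2) ^ κ * (m : ℝ) ^ κ := by
      rw [← Real.mul_rpow (by norm_num) (by positivity)]
      congr 1; ring
    have e6 : (T.card : ℝ) ≤ A * (2 * (m : ℝ) ^ κ) := hTc.trans (mul_le_mul_of_nonneg_left e4 hA)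
    rw [e5] at e2
    calc (P.depth : ℝ) ≤ c + T.card := e1
      _ ≤ B * ((1 / 2) ^ κ * (m : ℝ) ^ κ) + A * (2 * (m : ℝ) ^ κ) := add_le_add e2 e6
      _ = (B * (1 / 2) ^ κ + 2 * A) * (m : ℝ) ^ κ := by ring
      _ = B * (m : ℝ) ^ κ := by rw [hBq]

/-- the sign function of a Boolean function -/
noncomputable def sgf {n : ℕ} (f : (Fin n → ZMod 2) → Bool) : G (Fin n) → ℝ :=
  fun x => if f x then -1 else 1

theorem sgf_isSign {n : ℕ} (f : (Fin n → ZMod 2) → Bool) : IsSign (sgf f) := by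
  intro x
  unfold sgf
  split_ifs
  · exact Or.inr rfl
  · exact Or.inl rfl

theorem decide_sgf {n : ℕ} (f : (Fin n → ZMod 2) → Bool) (x : Fin n → ZMod 2) :
    decide (sgf f x = -1) = f x := by
  unfold sgf
  cases hf : f x with
  | true => simp
  | false => norm_num

/-- the `{0, 1}`-valued function -/
noncomputable def ind {n : ℕ} (f : (Fin n → ZMod 2) → Bool) : G (Fin n) → ℝ :=
  fun x => if f x then 1 else 0

theorem sparsity_eq {n : ℕ} (f : (Fin n → ZMod 2) → Bool) : sparsity f = (spec (ind f)).card := by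
  classical
  unfold sparsity
  congr 1

theorem sgf_ind {n : ℕ} (f : (Fin n → ZMod 2) → Bool) : sgf f = fun x => 1 + (-2) * ind f x := by
  funext x
  unfold sgf ind
  split_ifs <;> norm_num

theorem spec_sub {n : ℕ} (f : (Fin n → ZMod 2) → Bool) :
    (spec (sgf f)).erase 0 ⊆ spec (ind f) := by
  intro a ha
  obtain ⟨h0, h1⟩ := Finset.mem_erase.mp ha
  rw [mem_spec, sgf_ind, coef_add (fun _ => (1 : ℝ)) (ind f) (-2) a] at h1
  have h2 : coef (fun _ : G (Fin n) => (1 : ℝ)) a = 0 := by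
    have h3 := nc_const (Ω := Fin n) 1 a h0
    unfold nc at h3
    rw [div_eq_zero_iff] at h3
    rcases h3 with h3 | h3
    · exact h3
    · exact absurd h3 (by positivity)
  rw [h2, zero_add] at h1
  exact (mem_spec (ind f) a).mpr (right_ne_zero_of_mul h1)

/-- parity decision trees -/
theorem tree_of_kill (hres : ExRes) (hnc : NcRes) (κ : ℝ) (hκ0 : 0 < κ) (hκ1 : κ ≤ 1)
    (A : ℝ) (hA : 0 ≤ A)
    (h : ∀ (n : ℕ) (f : G (Fin n) → ℝ), IsSign f → Kill f (A * ((spec f).card : ℝ) ^ κ)) :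
    ∃ B : ℝ, 0 ≤ B ∧ ∀ (n : ℕ) (f : (Fin n → ZMod 2) → Bool) (m : ℕ),
      ((spec (sgf f)).erase 0).card ≤ m →
      ∃ P : ParityTree n, (∀ x, P.eval x = f x) ∧ (P.depth : ℝ) ≤ B * (m : ℝ) ^ κ := by
  refine ⟨2 * A / (1 - (1 / 2 : ℝ) ^ κ), ?_, fun n f m hm => ?_⟩
  · have hq1 : (1 / 2 : ℝ) ^ κ < 1 := Real.rpow_lt_one (by norm_num) (by norm_num) hκ0
    exact div_nonneg (by linarith) (by linarith)
  · obtain ⟨P, hP1, hP2⟩ := pdt_rec hres hnc κ hκ0 hκ1 A hA n (h n) m (sgf f) (sgf_isSign f) hm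
    exact ⟨P, fun x => by rw [hP2, decide_sgf], hP1⟩

end Pool.Agent.Lib_helper67.XO4
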